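import Mathlib
import Pool.Agent.H39.Z0Mad

set_option autoImplicit false

namespace Pool.Agent.Results.MP_af84fe_lc.NoAnalyticMAD

open Filter Topology

/-- `A` has asymptotic density zero. -/
def DensityZero (A : Set ℕ) : Prop :=
  Tendsto (fun n : ℕ => ((A ∩ Set.Iio n).ncard : ℝ) / n) atTop (𝓝 0)

/-- There is no uncountable analytic family that is maximal almost disjoint for the ideal of
sets of density zero. -/
theorem result :
    ¬ ∃ F : Set (Set ℕ), ¬ F.Countable ∧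
      MeasureTheory.AnalyticSet {f : ℕ → Bool | {n : ℕ | f n = true} ∈ F} ∧
      (∀ A ∈ F, ¬ DensityZero A) ∧
      (∀ A ∈ F, ∀ B ∈ F, A ≠ B → DensityZero (A ∩ B)) ∧
      (∀ X : Set ℕ, ¬ DensityZero X → ∃ A ∈ F, ¬ DensityZero (X ∩ A)) := by
  rintro ⟨F, h1, h2, h3, h4, h5⟩
  simp only [DensityZero, Pool.Agent.H39.Z0Mad.z0_iff] at h3 h4 h5
  exact Pool.Agent.H39.Z0Mad.main h1 h2 h3 h4 h5

end Pool.Agent.Results.MP_af84fe_lc.NoAnalyticMAD
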